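import Mathlib

set_option autoImplicit false

open Polynomial

namespace Pool.Agent.Results.MP_d3f0ca_an.NoAdmissible

/-- The interval `Δ = [-1, 1]`. -/
abbrev Dlt : Type := Set.Icc (-1 : ℝ) 1

/-- The one-sided quantity `min_{t ∈ Δ} max {|x - t| / α, |u(x) - v(t)|}`. -/
noncomputable def oneSided (α : ℝ) (u v : Dlt → ℝ) (x : Dlt) : ℝ :=
  ⨅ t : Dlt, max (|(x : ℝ) - (t : ℝ)| / α) |u x - v t|

/-- The Hausdorff difference `|f(x) - g(x)|_α`. -/
noncomputable def hausDiff (α : ℝ) (f g : Dlt → ℝ) (x : Dlt) : ℝ :=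
  max (oneSided α f g x) (oneSided α g f x)

/-- The majorant `e₀ + n⁻¹ √(1 - x²) ln (e + β M n)`, where the first term is `e₀`. -/
noncomputable def major (e₀ β M : ℝ) (n : ℕ) (x : ℝ) : ℝ :=
  e₀ + Real.sqrt (1 - x ^ 2) * Real.log (Real.exp 1 + β * M * n) / n

/-- Growth of a polynomial away from a short interval `[1 - u, 1]`. -/
lemma growth (n : ℕ) (p : ℝ[X]) (hp : p.natDegree ≤ n) (hn : 1 ≤ n) (u B : ℝ) (hu : 0 < u)
    (hu1 : u ≤ 1) (hB : ∀ x : ℝ, 1 - u ≤ x → x ≤ 1 → |p.eval x| ≤ B) (t : ℝ)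
    (ht : -1 ≤ t) (ht1 : t ≤ 1) :
    |p.eval t| ≤ (n + 1) * (B * (2 * n / u) ^ n) := by
  classical
  have hB0 : 0 ≤ B := le_trans (abs_nonneg _) (hB 1 (by linarith) le_rfl)
  have hnpos : (0 : ℝ) < n := by exact_mod_cast hn
  set s : Finset ℕ := Finset.range (n + 1) with hs
  set v : ℕ → ℝ := fun i => 1 - u * i / n with hv
  have hinj : Set.InjOn v s := by
    intro i _ j _ hij
    simp only [hv] at hij
    have h1 : u * i / n = u * j / n := by linarith
    have h2 : (i : ℝ) = j := by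
      field_simp at h1
      exact h1
    exact_mod_cast h2
  have hdeg : p.degree < s.card := by
    rw [hs, Finset.card_range]
    refine lt_of_le_of_lt degree_le_natDegree ?_
    exact_mod_cast Nat.lt_succ_of_le hp
  have hpi := Lagrange.eq_interpolate hinj hdeg
  have hev : p.eval t = ∑ i ∈ s, p.eval (v i) * (Lagrange.basis s v i).eval t := by
    conv_lhs => rw [hpi]
    rw [Lagrange.interpolate_apply, eval_finsetSum]
    refine Finset.sum_congr rfl fun i _ => ?_
    rw [eval_mul, eval_C]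
  have hvI : ∀ i ∈ s, 1 - u ≤ v i ∧ v i ≤ 1 := by
    intro i hi
    have hi' : (i : ℝ) ≤ n := by
      have := Finset.mem_range.mp hi
      exact_mod_cast Nat.lt_succ_iff.mp this
    have h0 : (0 : ℝ) ≤ i := Nat.cast_nonneg i
    have h1 : i / (n : ℝ) ≤ 1 := by
      rw [div_le_one hnpos]; exact hi'
    have h2 : 0 ≤ i / (n : ℝ) := by positivity
    have h3 : v i = 1 - u * (i / n) := by simp only [hv]; ring
    rw [h3]
    constructor <;> nlinarith
  have hbas : ∀ i ∈ s, |(Lagrange.basis s v i).eval t| ≤ (2 * n / u) ^ n := by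
    intro i hi
    rw [Lagrange.basis, eval_prod, Finset.abs_prod]
    have hcard : (s.erase i).card = n := by
      rw [Finset.card_erase_of_mem hi, hs, Finset.card_range]; rfl
    calc ∏ j ∈ s.erase i, |(Lagrange.basisDivisor (v i) (v j)).eval t|
        ≤ ∏ j ∈ s.erase i, (2 * n / u) := by
          refine Finset.prod_le_prod (fun _ _ => abs_nonneg _) fun j hj => ?_
          have hj' := Finset.mem_erase.mp hj
          have hvj := hvI j hj'.2
          have e1 : (Lagrange.basisDivisor (v i) (v j)).eval t = (v i - v j)⁻¹ * (t - v j) := by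
            simp [Lagrange.basisDivisor]
          rw [e1, abs_mul, abs_inv]
          have h1 : |t - v j| ≤ 2 := by
            rw [abs_le]; constructor <;> linarith [hvj.1, hvj.2]
          have h2 : u / n ≤ |v i - v j| := by
            have e2 : v i - v j = u / n * ((j : ℝ) - i) := by
              simp only [hv]; ring
            rw [e2, abs_mul, abs_of_pos (div_pos hu hnpos)]
            have h3 : (1 : ℝ) ≤ |(j : ℝ) - i| := by
              have h4 : (1 : ℤ) ≤ |(j : ℤ) - i| := by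
                apply Int.one_le_abs
                have := hj'.1
                omega
              exact_mod_cast h4
            calc u / n = u / n * 1 := by ring
              _ ≤ u / n * |(j : ℝ) - i| :=
                mul_le_mul_of_nonneg_left h3 (div_pos hu hnpos).le
          have h5 : |v i - v j|⁻¹ ≤ n / u := by
            have := inv_anti₀ (div_pos hu hnpos) h2
            rwa [inv_div] at this
          calc |v i - v j|⁻¹ * |t - v j| ≤ n / u * 2 :=
                mul_le_mul h5 h1 (abs_nonneg _) (by positivity)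
            _ = 2 * n / u := by ring
      _ = (2 * n / u) ^ n := by rw [Finset.prod_const, hcard]
  rw [hev]
  calc |∑ i ∈ s, p.eval (v i) * (Lagrange.basis s v i).eval t|
      ≤ ∑ i ∈ s, |p.eval (v i) * (Lagrange.basis s v i).eval t| := Finset.abs_sum_le_sum_abs _ _
    _ ≤ ∑ i ∈ s, B * (2 * n / u) ^ n := by
        refine Finset.sum_le_sum fun i hi => ?_
        rw [abs_mul]
        exact mul_le_mul (hB _ (hvI i hi).1 (hvI i hi).2) (hbas i hi) (abs_nonneg _) hB0
    _ = (n + 1) * (B * (2 * n / u) ^ n) := by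
        rw [Finset.sum_const, hs, Finset.card_range, nsmul_eq_mul]; push_cast; ring

/-- The infimum in `oneSided` is nearly attained. -/
lemma exists_of_oneSided {α : ℝ} {u v : Dlt → ℝ} {x : Dlt} {b b' : ℝ}
    (h : oneSided α u v x ≤ b) (hb : b < b') :
    ∃ t : Dlt, |(x : ℝ) - (t : ℝ)| / α < b' ∧ |u x - v t| < b' := by
  have h1 : oneSided α u v x < b' := lt_of_le_of_lt h hb
  have : Nonempty Dlt := ⟨x⟩
  obtain ⟨t, ht⟩ := exists_lt_of_ciInf_lt h1
  exact ⟨t, lt_of_le_of_lt (le_max_left _ _) ht, lt_of_le_of_lt (le_max_right _ _) ht⟩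

/-- The test function: `0` on `[0, 1]`, equal to `M` at `-1`. -/
noncomputable def test (M : ℝ) : C(Dlt, ℝ) :=
  ⟨fun x => M * max 0 (-(x : ℝ)), by fun_prop⟩

lemma norm_test {M : ℝ} (hM : 0 ≤ M) : ‖test M‖ = M := by
  apply le_antisymm
  · rw [ContinuousMap.norm_le _ hM]
    intro x
    have h1 := x.2.1
    have h2 := x.2.2
    have e : (test M) x = M * max 0 (-(x : ℝ)) := rfl
    rw [e, Real.norm_eq_abs, abs_of_nonneg (mul_nonneg hM (le_max_left _ _))]
    have : max 0 (-(x : ℝ)) ≤ 1 := max_le (by norm_num) (by linarith)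
    nlinarith
  · have h := ContinuousMap.norm_coe_le_norm (test M) ⟨-1, by norm_num, by norm_num⟩
    have e : (test M) ⟨-1, by norm_num, by norm_num⟩ = M * max 0 (-(-1 : ℝ)) := rfl
    rw [e, Real.norm_eq_abs] at h
    have e2 : max 0 (-(-1 : ℝ)) = 1 := by norm_num
    rw [e2, mul_one, abs_of_nonneg hM] at h
    exact h

/-- For large `M` the logarithmic bound is below `M`. -/
lemma exists_M (β : ℝ) (hβ : 0 < β) (n : ℕ) (hn : 1 ≤ n) (A K : ℝ) :
    ∃ M : ℝ, 1 ≤ M ∧ A + K * (Real.log (Real.exp 1 + β * M * n)) ^ (2 * n) < M := by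
  have hnpos : (0 : ℝ) < n := by exact_mod_cast hn
  have hβn : 0 < β * n := mul_pos hβ hnpos
  have h1 : (fun y : ℝ => A + K * (Real.log y) ^ (2 * n) + Real.exp 1 / (β * n)) =o[Filter.atTop]
      (fun y : ℝ => y) := by
    have hlog := (Real.isLittleO_pow_log_id_atTop (n := 2 * n)).const_mul_left K
    have hc1 : (fun _ : ℝ => A) =o[Filter.atTop] (fun y : ℝ => y) :=
      Asymptotics.isLittleO_const_id_atTop A
    have hc2 : (fun _ : ℝ => Real.exp 1 / (β * n)) =o[Filter.atTop] (fun y : ℝ => y) :=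
      Asymptotics.isLittleO_const_id_atTop _
    exact (hc1.add hlog).add hc2
  have h2 := h1.def (c := 1 / (2 * (β * n))) (by positivity)
  have h3 := h2.and (Filter.eventually_ge_atTop (Real.exp 1 + β * n + 1))
  obtain ⟨y, hy1, hy2⟩ := h3.exists
  refine ⟨(y - Real.exp 1) / (β * n), ?_, ?_⟩
  · rw [le_div_iff₀ hβn]; linarith
  · have e1 : Real.exp 1 + β * ((y - Real.exp 1) / (β * n)) * n = y := by
      field_simp
      ring
    rw [e1]
    have hypos : 0 < y := by
      have := Real.exp_pos 1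
      linarith
    rw [Real.norm_eq_abs, Real.norm_eq_abs, abs_of_pos hypos] at hy1
    have h4 := le_trans (le_abs_self _) hy1
    have h5 : 1 / (2 * (β * n)) * y < y / (β * n) := by
      have : 1 / (2 * (β * n)) * y = (1 / 2) * (y / (β * n)) := by
        field_simp
      rw [this]
      have := div_pos hypos hβn
      linarith
    rw [sub_div]
    linarith

/-- Main step: with endpoint term `e₀`, `c e₀ ≤ 1/4`, the estimate fails for some `f`. -/
theorem key (c α β : ℝ) (hc : 0 < c) (hα : 0 < α) (hβ : 0 < β) (n : ℕ) (hn : 1 ≤ n)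
    (e₀ : ℝ) (he : c * e₀ ≤ 1 / 4) :
    ∃ f : C(Dlt, ℝ), ∀ p : ℝ[X], p.natDegree ≤ n →
      ∃ x : Dlt, c / α * major e₀ β ‖f‖ n x < hausDiff α f (fun y => p.eval (y : ℝ)) x := by
  have hnpos : (0 : ℝ) < n := by exact_mod_cast hn
  have hn1 : (1 : ℝ) ≤ n := by exact_mod_cast hn
  obtain ⟨M, hM1, hM⟩ := exists_M β hβ n hn (1 / α)
    ((n + 1) * (1 / α * (2 * n * (4 + 32 * c ^ 2)) ^ n))
  refine ⟨test M, fun p hp => ?_⟩
  by_contra hcon
  push Not at hcon
  rw [norm_test (by linarith : (0 : ℝ) ≤ M)] at hcon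
  set L : ℝ := Real.log (Real.exp 1 + β * M * n) with hL
  have hL1 : 1 ≤ L := by
    have h1 : Real.exp 1 ≤ Real.exp 1 + β * M * n := by
      have : 0 ≤ β * M * n := by positivity
      linarith
    have := Real.log_le_log (Real.exp_pos 1) h1
    rwa [Real.log_exp] at this
  set u : ℝ := 1 / (4 + 32 * c ^ 2 * L ^ 2) with hu
  have hden : 0 < 4 + 32 * c ^ 2 * L ^ 2 := by positivity
  have hu0 : 0 < u := by positivity
  have hu4 : u ≤ 1 / 4 := by
    rw [hu]
    apply one_div_le_one_div_of_le (by norm_num)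
    have : 0 ≤ 32 * c ^ 2 * L ^ 2 := by positivity
    linarith
  have huc : 32 * c ^ 2 * L ^ 2 * u ≤ 1 := by
    rw [hu, mul_one_div, div_le_one hden]; linarith
  have hsmall : ∀ x : ℝ, 1 - u ≤ x → x ≤ 1 → |p.eval x| ≤ 1 / α := by
    intro x hx hx1
    have hxm : x ∈ Set.Icc (-1 : ℝ) 1 := ⟨by linarith, hx1⟩
    have h := hcon ⟨x, hxm⟩
    have h2 : oneSided α (fun y : Dlt => p.eval (y : ℝ)) (test M) ⟨x, hxm⟩ ≤
        c / α * major e₀ β M n x := le_trans (le_max_right _ _) h
    have hmaj : c * major e₀ β M n x ≤ 1 / 2 := by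
      have hsq : Real.sqrt (1 - x ^ 2) ≤ Real.sqrt (2 * u) := by
        apply Real.sqrt_le_sqrt
        nlinarith
      have h3 : c * (Real.sqrt (1 - x ^ 2) * L / n) ≤ 1 / 4 := by
        have h4 : Real.sqrt (1 - x ^ 2) * L / n ≤ Real.sqrt (2 * u) * L := by
          rw [div_le_iff₀ hnpos]
          have h5 : 0 ≤ Real.sqrt (2 * u) * L := by positivity
          calc Real.sqrt (1 - x ^ 2) * L ≤ Real.sqrt (2 * u) * L := by
                apply mul_le_mul_of_nonneg_right hsq; linarith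
            _ = Real.sqrt (2 * u) * L * 1 := by ring
            _ ≤ Real.sqrt (2 * u) * L * n := mul_le_mul_of_nonneg_left hn1 h5
        have h6 : c * (Real.sqrt (2 * u) * L) ≤ 1 / 4 := by
          have h7 : 0 ≤ c * (Real.sqrt (2 * u) * L) := by positivity
          have h8 : (c * (Real.sqrt (2 * u) * L)) ^ 2 ≤ (1 / 4) ^ 2 := by
            have h9 : Real.sqrt (2 * u) ^ 2 = 2 * u := Real.sq_sqrt (by positivity)
            calc (c * (Real.sqrt (2 * u) * L)) ^ 2 = c ^ 2 * L ^ 2 * Real.sqrt (2 * u) ^ 2 := by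
                  ring
              _ = c ^ 2 * L ^ 2 * (2 * u) := by rw [h9]
              _ ≤ (1 / 4) ^ 2 := by nlinarith
          exact abs_le_of_sq_le_sq' h8 (by norm_num) |>.2
        exact le_trans (mul_le_mul_of_nonneg_left h4 hc.le) h6
      have : c * major e₀ β M n x = c * e₀ + c * (Real.sqrt (1 - x ^ 2) * L / n) := by
        simp only [major, ← hL]; ring
      rw [this]; linarith
    have hmaj' : c / α * major e₀ β M n x ≤ 1 / 2 / α := by
      have : c / α * major e₀ β M n x = c * major e₀ β M n x / α := by ring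
      rw [this]
      exact div_le_div_of_nonneg_right hmaj hα.le
    have hlt : c / α * major e₀ β M n x < (3 / 4) / α := by
      refine lt_of_le_of_lt hmaj' ?_
      exact div_lt_div_of_pos_right (by norm_num) hα
    obtain ⟨t, ht1, ht2⟩ := exists_of_oneSided h2 hlt
    have ht3 : |x - (t : ℝ)| < 3 / 4 := by
      have := (div_lt_div_iff_of_pos_right hα).mp ht1
      exact this
    have ht4 : 0 ≤ (t : ℝ) := by
      have := (abs_lt.mp ht3).2
      linarith
    have ht5 : (test M) t = 0 := by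
      have e : (test M) t = M * max 0 (-(t : ℝ)) := rfl
      rw [e, max_eq_left (by linarith), mul_zero]
    have ht6 : |p.eval x| < (3 / 4) / α := by
      have := ht2
      simp only [ht5, sub_zero] at this
      exact this
    refine le_trans ht6.le ?_
    exact div_le_div_of_nonneg_right (by norm_num) hα.le
  have hgrow := growth n p hp hn u (1 / α) hu0 (by linarith) hsmall
  have hm1 : (-1 : ℝ) ∈ Set.Icc (-1 : ℝ) 1 := by norm_num
  have h := hcon ⟨-1, hm1⟩
  have h2 : oneSided α (test M) (fun y : Dlt => p.eval (y : ℝ)) ⟨-1, hm1⟩ ≤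
      c / α * major e₀ β M n (-1) := le_trans (le_max_left _ _) h
  have hmaj : c / α * major e₀ β M n (-1) < 1 / α := by
    have e1 : major e₀ β M n (-1) = e₀ := by
      simp [major]
    rw [e1]
    have : c / α * e₀ = c * e₀ / α := by ring
    rw [this]
    exact div_lt_div_of_pos_right (by linarith) hα
  obtain ⟨t, _, ht2⟩ := exists_of_oneSided h2 hmaj
  have e2 : (test M) ⟨-1, hm1⟩ = M := by
    have e : (test M) ⟨-1, hm1⟩ = M * max 0 (-(-1 : ℝ)) := rfl
    rw [e]; norm_num
  have ht3 : |M - p.eval (t : ℝ)| < 1 / α := by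
    have := ht2
    simp only [e2] at this
    exact this
  have ht4 := (abs_lt.mp ht3).2
  have ht5 := hgrow t t.2.1 t.2.2
  have ht6 : M < 1 / α + (n + 1) * (1 / α * (2 * n / u) ^ n) := by
    have := le_trans (le_abs_self _) ht5
    linarith
  have hub : (2 * n / u) ^ n ≤ (2 * n * (4 + 32 * c ^ 2)) ^ n * L ^ (2 * n) := by
    have e3 : 2 * (n : ℝ) / u = 2 * n * (4 + 32 * c ^ 2 * L ^ 2) := by
      rw [hu]; field_simp
    have e4 : (2 * (n : ℝ) * (4 + 32 * c ^ 2)) ^ n * L ^ (2 * n) =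
        (2 * n * (4 + 32 * c ^ 2) * L ^ 2) ^ n := by
      rw [mul_pow _ (L ^ 2), ← pow_mul]
    rw [e3, e4]
    apply pow_le_pow_left₀ (by positivity)
    have hL2 : 1 ≤ L ^ 2 := one_le_pow₀ hL1
    have : 4 + 32 * c ^ 2 * L ^ 2 ≤ (4 + 32 * c ^ 2) * L ^ 2 := by nlinarith
    calc 2 * (n : ℝ) * (4 + 32 * c ^ 2 * L ^ 2) ≤ 2 * n * ((4 + 32 * c ^ 2) * L ^ 2) :=
          mul_le_mul_of_nonneg_left this (by positivity)
      _ = 2 * n * (4 + 32 * c ^ 2) * L ^ 2 := by ring
  have hfin : (n + 1) * (1 / α * (2 * n / u) ^ n) ≤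
      (n + 1) * (1 / α * (2 * n * (4 + 32 * c ^ 2)) ^ n) * L ^ (2 * n) := by
    calc ((n : ℝ) + 1) * (1 / α * (2 * n / u) ^ n)
        ≤ (n + 1) * (1 / α * ((2 * n * (4 + 32 * c ^ 2)) ^ n * L ^ (2 * n))) := by
          gcongr
      _ = (n + 1) * (1 / α * (2 * n * (4 + 32 * c ^ 2)) ^ n) * L ^ (2 * n) := by ring
  linarith

/-- Let `ψ n → 0` and `c, α, β > 0`. For all large `n` it is false that every continuous `f`
on `[-1, 1]` has a polynomial `p` of degree at most `n` with
`|f(x) - p(x)|_α ≤ (c/α) (ψ n + n⁻¹ √(1-x²) ln (e + β M n))` for all `x`, `M = max |f|`. -/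
theorem result (ψ : ℕ → ℝ) (hψ : Filter.Tendsto ψ Filter.atTop (nhds 0)) (c α β : ℝ)
    (hc : 0 < c) (hα : 0 < α) (hβ : 0 < β) :
    ∀ᶠ n : ℕ in Filter.atTop, ¬ ∀ f : C(Dlt, ℝ), ∃ p : ℝ[X], p.natDegree ≤ n ∧
      ∀ x : Dlt, hausDiff α f (fun y => p.eval (y : ℝ)) x ≤ c / α * (ψ n +
        Real.sqrt (1 - (x : ℝ) ^ 2) * Real.log (Real.exp 1 + β * ‖f‖ * n) / n) := by
  have h1 : ∀ᶠ n : ℕ in Filter.atTop, ψ n < 1 / (4 * c) :=
    hψ.eventually_lt_const (by positivity)
  filter_upwards [h1, Filter.eventually_ge_atTop 1] with n hn1 hn2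
  have he : c * ψ n ≤ 1 / 4 := by
    have := mul_le_mul_of_nonneg_left hn1.le hc.le
    have e : c * (1 / (4 * c)) = 1 / 4 := by field_simp
    linarith
  obtain ⟨f, hf⟩ := key c α β hc hα hβ n hn2 (ψ n) he
  intro hall
  obtain ⟨p, hp, hpx⟩ := hall f
  obtain ⟨x, hx⟩ := hf p hp
  exact absurd (hpx x) (not_le.mpr hx)

/-- The literal form: no constant `c` is admissible. -/
theorem no_admissible : ¬ ∃ c : ℝ, 0 < c ∧ ∀ (f : C(Dlt, ℝ)) (α : ℝ), 0 < α → ∀ n : ℕ, 2 ≤ n →
    ∃ p : ℝ[X], p.natDegree ≤ n ∧ ∀ x : Dlt,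
      hausDiff α f (fun y => p.eval (y : ℝ)) x ≤ c / α * (Real.log n / (n : ℝ) ^ 2 +
        Real.sqrt (1 - (x : ℝ) ^ 2) * Real.log (Real.exp 1 + ‖f‖ * n) / n) := by
  rintro ⟨c, hc, hadm⟩
  have htend : Filter.Tendsto (fun n : ℕ => Real.log n / (n : ℝ) ^ 2) Filter.atTop (nhds 0) := by
    have h1 : (fun x : ℝ => Real.log x) =o[Filter.atTop] (fun x : ℝ => x ^ (2 : ℝ)) :=
      isLittleO_log_rpow_atTop (by norm_num)
    have h2 := h1.tendsto_div_nhds_zero
    have h3 := h2.comp tendsto_natCast_atTop_atTop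
    refine h3.congr fun n => ?_
    simp [Function.comp]
  obtain ⟨n, hn, hn2⟩ := ((result _ htend c 1 1 hc one_pos one_pos).and
    (Filter.eventually_ge_atTop 2)).exists
  refine hn fun f => ?_
  obtain ⟨p, hp, hpx⟩ := hadm f 1 one_pos n hn2
  refine ⟨p, hp, fun x => ?_⟩
  rw [one_mul]
  exact hpx x

end Pool.Agent.Results.MP_d3f0ca_an.NoAdmissible
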